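import Mathlib

/-!
# A lattice polytope with polynomial but non-effective equivariant `H*`-series

The group `G` has two elements and the polytope `P` is the free join (in dimension `8`) of the unit
square, on which the nontrivial element of `G` acts by the flip of one coordinate, and of a
five-dimensional lattice simplex with Ehrhart numerator `1 + t ^ 3`, on which `G` acts trivially.
One finds `H*(1) = (1 + t) (1 + t ^ 3)` and `H*(g) = (1 + t ^ 2) (1 - t + t ^ 2)`.  So `H*` is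
polynomial, while `H*_2` takes the value `0` at the identity and `2` at `g`, so it is not the
character of a representation.
-/

namespace Pool.Agent.Results.MP_3885fd_co.PolynomialNotEffective

open scoped Pointwise

/-- The inclusion of the lattice `ℤ ^ d` into `ℝ ^ d`. -/
def toReal {d : ℕ} (x : Fin d → ℤ) : Fin d → ℝ := fun i => (x i : ℝ)

/-- A `d`-dimensional lattice polytope in `ℝ ^ d`: the convex hull of finitely many points of the
lattice `ℤ ^ d` whose affine span is the whole space. -/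
def IsLatticePolytope {d : ℕ} (P : Set (Fin d → ℝ)) : Prop :=
  (∃ V : Finset (Fin d → ℤ), P = convexHull ℝ (toReal '' (V : Set (Fin d → ℤ)))) ∧
    affineSpan ℝ P = ⊤

section Defs

variable {G : Type} [Group G] {d : ℕ}

/-- The group `G`, acting on `ℝ ^ d` by affine maps through `ψ`, maps the lattice `ℤ ^ d` onto
itself and the polytope `P` onto itself. -/
structure ActsOn (ψ : G →* ((Fin d → ℝ) ≃ᵃ[ℝ] (Fin d → ℝ))) (P : Set (Fin d → ℝ)) : Prop where
  lattice : ∀ g, ψ g '' Set.range (toReal (d := d)) = Set.range (toReal (d := d))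
  polytope : ∀ g, ψ g '' P = P

/-- `χ_{mP}(g)`, the number of lattice points of `m P` fixed by `g`, where `g` acts on `m P` by
`x ↦ m • ψ g (m⁻¹ • x)`; for `m = 0` it is the value `1` of the trivial character. -/
noncomputable def chi (ψ : G →* ((Fin d → ℝ) ≃ᵃ[ℝ] (Fin d → ℝ))) (P : Set (Fin d → ℝ)) (m : ℕ)
    (g : G) : ℕ :=
  if m = 0 then 1 else
    Nat.card {x : Fin d → ℤ // toReal x ∈ (m : ℝ) • P ∧
      (m : ℝ) • ψ g ((m : ℝ)⁻¹ • toReal x) = toReal x}

/-- The matrix of the linear part `ρ(g)` of the affine map `ψ g`, in the standard basis. -/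
noncomputable def rhoMatrix (ψ : G →* ((Fin d → ℝ) ≃ᵃ[ℝ] (Fin d → ℝ))) (g : G) :
    Matrix (Fin d) (Fin d) ℝ :=
  LinearMap.toMatrix' (ψ g).linear.toLinearMap

/-- `det (I - t ρ(g))`, as a power series in `t` with complex coefficients. -/
noncomputable def detOneSub (ψ : G →* ((Fin d → ℝ) ≃ᵃ[ℝ] (Fin d → ℝ))) (g : G) :
    PowerSeries ℂ :=
  Matrix.det ((1 : Matrix (Fin d) (Fin d) (PowerSeries ℂ)) -
    (PowerSeries.X : PowerSeries ℂ) •
      (rhoMatrix ψ g).map (fun a : ℝ => PowerSeries.C (a : ℂ)))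

/-- The equivariant `H*`-series evaluated at `g`: the power series
`(∑_m χ_{mP}(g) t ^ m) (1 - t) det (I - t ρ(g))`. -/
noncomputable def HStar (ψ : G →* ((Fin d → ℝ) ≃ᵃ[ℝ] (Fin d → ℝ))) (P : Set (Fin d → ℝ))
    (g : G) : PowerSeries ℂ :=
  PowerSeries.mk (fun m => (chi ψ P m g : ℂ)) * ((1 - PowerSeries.X) * detOneSub ψ g)

/-- `H*(t)` is polynomial: only finitely many of the class functions `H*_i` are nonzero. -/
def HStarPolynomial (ψ : G →* ((Fin d → ℝ) ≃ᵃ[ℝ] (Fin d → ℝ))) (P : Set (Fin d → ℝ)) : Prop :=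
  {i : ℕ | ∃ g : G, PowerSeries.coeff i (HStar ψ P g) ≠ 0}.Finite

/-- `H*(t)` is effective: each `H*_i` is the character of a finite-dimensional complex
representation of `G`. -/
def HStarEffective (ψ : G →* ((Fin d → ℝ) ≃ᵃ[ℝ] (Fin d → ℝ))) (P : Set (Fin d → ℝ)) : Prop :=
  ∀ i : ℕ, ∃ (W : Type) (_ : AddCommGroup W) (_ : Module ℂ W) (_ : FiniteDimensional ℂ W)
    (τ : Representation ℂ G W), ∀ g : G,
      LinearMap.trace ℂ W (τ g) = PowerSeries.coeff i (HStar ψ P g)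

end Defs

/-! ### The polytope -/

/-- The ten vertices. -/
def verts : Fin 10 → (Fin 8 → ℤ) :=
  ![![0,0,0,0,0,0,0,1], ![1,0,0,0,0,0,0,1], ![0,1,0,0,0,0,0,1], ![1,1,0,0,0,0,0,1],
    ![0,0,0,0,0,0,0,0], ![0,0,1,0,0,0,0,0], ![0,0,0,1,0,0,0,0], ![0,0,0,0,1,0,0,0],
    ![0,0,0,0,0,1,0,0], ![0,0,1,1,1,1,2,0]]

/-- The inequalities cutting out the dilate by `m`. -/
def InR (m : ℝ) (p : Fin 8 → ℝ) : Prop :=
  0 ≤ p 0 ∧ p 0 ≤ p 7 ∧ 0 ≤ p 1 ∧ p 1 ≤ p 7 ∧ 0 ≤ p 6 ∧ p 6 ≤ 2 * p 2 ∧ p 6 ≤ 2 * p 3 ∧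
    p 6 ≤ 2 * p 4 ∧ p 6 ≤ 2 * p 5 ∧ 2 * (p 2 + p 3 + p 4 + p 5) + 2 * p 7 ≤ 2 * m + 3 * p 6

/-- The polytope. -/
def PP : Set (Fin 8 → ℝ) := {p | InR 1 p}

lemma convex_PP : Convex ℝ PP := by
  intro x hx y hy a b ha hb hab
  obtain ⟨h1, h2, h3, h4, h5, h6, h7, h8, h9, h10⟩ := hx
  obtain ⟨k1, k2, k3, k4, k5, k6, k7, k8, k9, k10⟩ := hy
  simp only [PP, Set.mem_ofPred_eq, InR, Pi.add_apply, Pi.smul_apply, smul_eq_mul]
  refine ⟨?_, ?_, ?_, ?_, ?_, ?_, ?_, ?_, ?_, ?_⟩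
  · nlinarith
  · nlinarith
  · nlinarith
  · nlinarith
  · nlinarith
  · nlinarith
  · nlinarith
  · nlinarith
  · nlinarith
  · nlinarith

lemma verts_mem (k : Fin 10) : toReal (verts k) ∈ PP := by
  fin_cases k <;> simp [verts, toReal, PP, InR] <;> norm_num

lemma PP_eq : PP = convexHull ℝ (toReal '' ((Finset.univ.image verts : Finset (Fin 8 → ℤ)) :
    Set (Fin 8 → ℤ))) := by
  apply Set.Subset.antisymm
  · intro p hp
    obtain ⟨h1, h2, h3, h4, h5, h6, h7, h8, h9, h10⟩ := hp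
    set t := min (p 0) (p 1) with ht
    have ht0 : 0 ≤ t := le_min h1 h3
    have ht1 : t ≤ p 0 := min_le_left _ _
    have ht2 : t ≤ p 1 := min_le_right _ _
    have ht3 : p 0 + p 1 - t ≤ p 7 := by
      rcases min_choice (p 0) (p 1) with h | h <;> rw [ht, h] <;> linarith
    let w : Fin 10 → ℝ := ![p 7 - p 0 - p 1 + t, p 0 - t, p 1 - t, t,
      1 - p 7 - (p 2 + p 3 + p 4 + p 5) + 3 / 2 * p 6, p 2 - p 6 / 2, p 3 - p 6 / 2,
      p 4 - p 6 / 2, p 5 - p 6 / 2, p 6 / 2]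
    have hw0 : ∀ i ∈ (Finset.univ : Finset (Fin 10)), 0 ≤ w i := by
      intro i _
      fin_cases i <;> (simp [w]; linarith)
    have hw1 : ∑ i, w i = 1 := by
      simp [w, Fin.sum_univ_succ]
      ring
    have hmem : ∀ i ∈ (Finset.univ : Finset (Fin 10)), toReal (verts i) ∈
        convexHull ℝ (toReal '' ((Finset.univ.image verts : Finset (Fin 8 → ℤ)) :
          Set (Fin 8 → ℤ))) := by
      intro i _
      apply subset_convexHull
      exact ⟨verts i, by simp, rfl⟩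
    have key := (convex_convexHull ℝ (toReal '' ((Finset.univ.image verts :
      Finset (Fin 8 → ℤ)) : Set (Fin 8 → ℤ)))).sum_mem hw0 hw1 hmem
    have hp : p = ∑ i, w i • toReal (verts i) := by
      ext j
      fin_cases j <;>
        simp [w, Fin.sum_univ_succ, verts, toReal] <;> ring
    rw [hp]
    exact key
  · apply convexHull_min _ convex_PP
    rintro _ ⟨v, hv, rfl⟩
    simp only [Finset.coe_image, Finset.coe_univ, Set.image_univ, Set.mem_range] at hv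
    obtain ⟨k, rfl⟩ := hv
    exact verts_mem k

lemma span_PP : affineSpan ℝ PP = ⊤ := by
  let U : Set (Fin 8 → ℝ) := {p | 0 < p 0 ∧ p 0 < p 7 ∧ 0 < p 1 ∧ p 1 < p 7 ∧ 0 < p 6 ∧
    p 6 < 2 * p 2 ∧ p 6 < 2 * p 3 ∧ p 6 < 2 * p 4 ∧ p 6 < 2 * p 5 ∧
    2 * (p 2 + p 3 + p 4 + p 5) + 2 * p 7 < 2 * 1 + 3 * p 6}
  have hU : IsOpen U := by
    simp only [U, Set.ofPred_and]
    refine (isOpen_lt (by fun_prop) (by fun_prop)).inter
      ((isOpen_lt (by fun_prop) (by fun_prop)).inter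
      ((isOpen_lt (by fun_prop) (by fun_prop)).inter
      ((isOpen_lt (by fun_prop) (by fun_prop)).inter
      ((isOpen_lt (by fun_prop) (by fun_prop)).inter
      ((isOpen_lt (by fun_prop) (by fun_prop)).inter
      ((isOpen_lt (by fun_prop) (by fun_prop)).inter
      ((isOpen_lt (by fun_prop) (by fun_prop)).inter
      ((isOpen_lt (by fun_prop) (by fun_prop)).inter
      (isOpen_lt (by fun_prop) (by fun_prop))))))))))
  have hne : U.Nonempty := by
    refine ⟨![1/4, 1/4, 1/100, 1/100, 1/100, 1/100, 1/100, 1/2], ?_⟩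
    simp [U]
    norm_num
  have hsub : U ⊆ PP := by
    rintro p ⟨h1, h2, h3, h4, h5, h6, h7, h8, h9, h10⟩
    exact ⟨h1.le, h2.le, h3.le, h4.le, h5.le, h6.le, h7.le, h8.le, h9.le, h10.le⟩
  have h := hU.affineSpan_eq_top hne
  exact top_le_iff.mp (h ▸ affineSpan_mono ℝ hsub)

lemma isLatticePolytope_PP : IsLatticePolytope PP := ⟨⟨_, PP_eq⟩, span_PP⟩

/-! ### The action -/

/-- The matrix of the linear map `p 0 ↦ c * p 0 + (1 - c) / 2 * p 7`. -/
noncomputable def Mat (c : ℝ) : Matrix (Fin 8) (Fin 8) ℝ := fun i j =>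
  if i = 0 then (if j = 0 then c else if j = 7 then (1 - c) / 2 else 0)
  else if i = j then 1 else 0

/-- The linear map. -/
noncomputable def Lin (c : ℝ) : (Fin 8 → ℝ) →ₗ[ℝ] (Fin 8 → ℝ) := Matrix.toLin' (Mat c)

lemma Lin_apply (c : ℝ) (p : Fin 8 → ℝ) (j : Fin 8) :
    Lin c p j = if j = 0 then c * p 0 + (1 - c) / 2 * p 7 else p j := by
  simp only [Lin, Matrix.toLin'_apply, Matrix.mulVec, dotProduct, Mat]
  fin_cases j <;> simp [Fin.sum_univ_succ]

lemma Lin_Lin (c c' : ℝ) (p : Fin 8 → ℝ) : Lin c (Lin c' p) = Lin (c * c') p := by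
  ext j
  simp only [Lin_apply]
  by_cases hj : j = 0
  · simp [hj]; ring
  · simp [hj]

lemma Lin_one (p : Fin 8 → ℝ) : Lin 1 p = p := by
  ext j
  simp only [Lin_apply]
  by_cases hj : j = 0
  · simp [hj]
  · simp [hj]

/-- A unit of `ℤ` as a real number. -/
def uR (u : ℤˣ) : ℝ := ((u : ℤ) : ℝ)

lemma uR_mul (u v : ℤˣ) : uR (u * v) = uR u * uR v := by simp [uR]

lemma uR_one : uR 1 = 1 := by simp [uR]

lemma uR_sq (u : ℤˣ) : uR u * uR u = 1 := by
  rw [← uR_mul, Int.units_mul_self, uR_one]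

/-- The linear equivalence attached to a unit. -/
noncomputable def linE (u : ℤˣ) : (Fin 8 → ℝ) ≃ₗ[ℝ] (Fin 8 → ℝ) :=
  LinearEquiv.ofInvolutive (Lin (uR u)) (by
    intro p
    rw [Lin_Lin, uR_sq, Lin_one])

lemma linE_apply (u : ℤˣ) (p : Fin 8 → ℝ) : linE u p = Lin (uR u) p := rfl

/-- The action. -/
noncomputable def psi : ℤˣ →* ((Fin 8 → ℝ) ≃ᵃ[ℝ] (Fin 8 → ℝ)) :=
  MonoidHom.mk' (fun u => (linE u).toAffineEquiv) (by
    intro u v
    ext1 p
    simp only [AffineEquiv.mul_def, AffineEquiv.trans_apply, LinearEquiv.coe_toAffineEquiv,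
      linE_apply, Lin_Lin, uR_mul])

lemma psi_apply (u : ℤˣ) (p : Fin 8 → ℝ) : psi u p = Lin (uR u) p := rfl

lemma rhoMatrix_psi (u : ℤˣ) : rhoMatrix psi u = Mat (uR u) := by
  have : (psi u).linear.toLinearMap = Lin (uR u) := rfl
  rw [rhoMatrix, this, Lin, LinearMap.toMatrix'_toLin']

lemma psi_psi (u : ℤˣ) (p : Fin 8 → ℝ) : psi u (psi u p) = p := by
  rw [psi_apply, psi_apply, Lin_Lin, uR_sq, Lin_one]

lemma psi_neg_apply (p : Fin 8 → ℝ) (j : Fin 8) :
    psi (-1) p j = if j = 0 then p 7 - p 0 else p j := by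
  rw [psi_apply, Lin_apply]
  have : uR (-1) = -1 := by simp [uR]
  rw [this]
  by_cases hj : j = 0
  · simp [hj]; ring
  · simp [hj]

lemma psi_one_apply (p : Fin 8 → ℝ) : psi 1 p = p := by
  simp

lemma image_eq_of_subset {S : Set (Fin 8 → ℝ)} (u : ℤˣ) (h : ∀ p ∈ S, psi u p ∈ S) :
    psi u '' S = S := by
  apply Set.Subset.antisymm
  · rintro _ ⟨p, hp, rfl⟩
    exact h p hp
  · intro p hp
    exact ⟨psi u p, h p hp, psi_psi u p⟩

lemma actsOn : ActsOn psi PP := by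
  constructor
  · intro u
    apply image_eq_of_subset
    rintro _ ⟨x, rfl⟩
    rcases Int.units_eq_one_or u with rfl | rfl
    · rw [psi_one_apply]; exact ⟨x, rfl⟩
    · refine ⟨fun j => if j = 0 then x 7 - x 0 else x j, ?_⟩
      ext j
      rw [psi_neg_apply]
      by_cases hj : j = 0
      · simp [hj, toReal]
      · simp [hj, toReal]
  · intro u
    apply image_eq_of_subset
    intro p hp
    rcases Int.units_eq_one_or u with rfl | rfl
    · rw [psi_one_apply]; exact hp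
    · obtain ⟨h1, h2, h3, h4, h5, h6, h7, h8, h9, h10⟩ := hp
      simp only [PP, Set.mem_ofPred_eq, InR, psi_neg_apply]
      simp only [if_true, Fin.reduceEq, if_false]
      exact ⟨by linarith, by linarith, h3, h4, h5, h6, h7, h8, h9, h10⟩

lemma det_psi (u : ℤˣ) :
    detOneSub psi u = (1 - PowerSeries.C ((uR u : ℝ) : ℂ) * PowerSeries.X) *
      (1 - PowerSeries.X) ^ 7 := by
  rw [detOneSub, rhoMatrix_psi]
  rw [Matrix.det_of_isUpperTriangular]
  · simp [Fin.prod_univ_succ, Mat]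
    left
    ring
  · intro i j hij
    simp only [id] at hij
    have h1 : i ≠ j := fun h => by subst h; exact lt_irrefl _ hij
    have h2 : i ≠ 0 := by
      rintro rfl
      exact absurd hij (by simp)
    simp [h1, h2, Mat]

/-! ### Counting lattice points -/

/-- The inequalities for integer points. -/
def InZ (m : ℕ) (x : Fin 8 → ℤ) : Prop :=
  0 ≤ x 0 ∧ x 0 ≤ x 7 ∧ 0 ≤ x 1 ∧ x 1 ≤ x 7 ∧ 0 ≤ x 6 ∧ x 6 ≤ 2 * x 2 ∧ x 6 ≤ 2 * x 3 ∧
    x 6 ≤ 2 * x 4 ∧ x 6 ≤ 2 * x 5 ∧ 2 * (x 2 + x 3 + x 4 + x 5) + 2 * x 7 ≤ 2 * m + 3 * x 6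

lemma inR_toReal (m : ℕ) (x : Fin 8 → ℤ) : InR m (toReal x) ↔ InZ m x := by
  simp only [InR, InZ, toReal]
  norm_cast

lemma mem_smul_PP {m : ℕ} (hm : m ≠ 0) (x : Fin 8 → ℤ) :
    toReal x ∈ (m : ℝ) • PP ↔ InZ m x := by
  have hm' : (m : ℝ) ≠ 0 := Nat.cast_ne_zero.mpr hm
  have hpos : (0 : ℝ) < m := by positivity
  rw [Set.mem_smul_set_iff_inv_smul_mem₀ hm', ← inR_toReal]
  simp only [PP, Set.mem_ofPred_eq, InR, Pi.smul_apply, smul_eq_mul]
  generalize toReal x = p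
  constructor
  · rintro ⟨h1, h2, h3, h4, h5, h6, h7, h8, h9, h10⟩
    have key : ∀ a : ℝ, (m : ℝ) * ((m : ℝ)⁻¹ * a) = a := fun a => by field_simp
    have g1 := mul_le_mul_of_nonneg_left h1 hpos.le
    have g2 := mul_le_mul_of_nonneg_left h2 hpos.le
    have g3 := mul_le_mul_of_nonneg_left h3 hpos.le
    have g4 := mul_le_mul_of_nonneg_left h4 hpos.le
    have g5 := mul_le_mul_of_nonneg_left h5 hpos.le
    have g6 := mul_le_mul_of_nonneg_left h6 hpos.le
    have g7 := mul_le_mul_of_nonneg_left h7 hpos.le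
    have g8 := mul_le_mul_of_nonneg_left h8 hpos.le
    have g9 := mul_le_mul_of_nonneg_left h9 hpos.le
    have g10 := mul_le_mul_of_nonneg_left h10 hpos.le
    simp only [mul_add, mul_left_comm (m : ℝ) 2, mul_left_comm (m : ℝ) 3, key, mul_zero] at *
    exact ⟨g1, g2, g3, g4, g5, g6, g7, g8, g9, by linarith⟩
  · rintro ⟨h1, h2, h3, h4, h5, h6, h7, h8, h9, h10⟩
    have hi : (0 : ℝ) ≤ (m : ℝ)⁻¹ := by positivity
    have hmm : (m : ℝ)⁻¹ * m = 1 := inv_mul_cancel₀ hm'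
    have g1 := mul_le_mul_of_nonneg_left h1 hi
    have g2 := mul_le_mul_of_nonneg_left h2 hi
    have g3 := mul_le_mul_of_nonneg_left h3 hi
    have g4 := mul_le_mul_of_nonneg_left h4 hi
    have g5 := mul_le_mul_of_nonneg_left h5 hi
    have g6 := mul_le_mul_of_nonneg_left h6 hi
    have g7 := mul_le_mul_of_nonneg_left h7 hi
    have g8 := mul_le_mul_of_nonneg_left h8 hi
    have g9 := mul_le_mul_of_nonneg_left h9 hi
    have g10 := mul_le_mul_of_nonneg_left h10 hi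
    simp only [mul_add, mul_left_comm (m : ℝ)⁻¹ 2, mul_left_comm (m : ℝ)⁻¹ 3, hmm, mul_zero,
      mul_one] at *
    exact ⟨g1, g2, g3, g4, g5, g6, g7, g8, g9, by linarith⟩

/-- The lattice points of the dilates of the simplex. -/
def TZ (j : ℕ) (y : Fin 5 → ℤ) : Prop :=
  0 ≤ y 4 ∧ y 4 ≤ 2 * y 0 ∧ y 4 ≤ 2 * y 1 ∧ y 4 ≤ 2 * y 2 ∧ y 4 ≤ 2 * y 3 ∧
    2 * (y 0 + y 1 + y 2 + y 3) ≤ 2 * j + 3 * y 4

/-- Tuples with given sum. -/
abbrev Tup (n : ℕ) : Type := {f : Fin 6 → ℕ // ∑ i, f i = n}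

lemma card_Tup (n : ℕ) : Nat.card (Tup n) = (5 + n).choose 5 := by
  have e := Nat.card_congr (Sym.equivNatSumOfFintype (Fin 6) n)
  rw [← e, Nat.card_eq_fintype_card, Sym.card_sym_eq_choose]
  simp only [Fintype.card_fin]
  have : 6 + n - 1 = 5 + n := by omega
  rw [this]
  exact Nat.choose_symm_add.symm

instance finite_Tup (n : ℕ) : Finite (Tup n) :=
  Finite.of_equiv _ (Sym.equivNatSumOfFintype (Fin 6) n)

/-- The points of even last coordinate. -/
def evenEquiv (j : ℕ) : {y : Fin 5 → ℤ // TZ j y ∧ y 4 % 2 = 0} ≃ Tup j where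
  toFun y := ⟨![(y.1 4 / 2).toNat, (y.1 0 - y.1 4 / 2).toNat, (y.1 1 - y.1 4 / 2).toNat,
    (y.1 2 - y.1 4 / 2).toNat, (y.1 3 - y.1 4 / 2).toNat,
    (j - (y.1 0 + y.1 1 + y.1 2 + y.1 3) + 3 * (y.1 4 / 2)).toNat], by
      obtain ⟨y, ⟨h1, h2, h3, h4, h5, h6⟩, h7⟩ := y
      simp [Fin.sum_univ_succ]
      omega⟩
  invFun f := ⟨![f.1 1 + f.1 0, f.1 2 + f.1 0, f.1 3 + f.1 0, f.1 4 + f.1 0, 2 * f.1 0], by
      obtain ⟨f, hf⟩ := f
      simp only [Fin.sum_univ_succ] at hf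
      simp at hf
      simp only [TZ]
      simp
      omega⟩
  left_inv := by
    rintro ⟨y, ⟨h1, h2, h3, h4, h5, h6⟩, h7⟩
    ext k
    fin_cases k <;> simp <;> omega
  right_inv := by
    rintro ⟨f, hf⟩
    simp only [Fin.sum_univ_succ] at hf
    simp at hf
    ext k
    fin_cases k <;> simp <;> omega

/-- The points of odd last coordinate. -/
def oddEquiv (j : ℕ) : {y : Fin 5 → ℤ // TZ (j + 3) y ∧ ¬ y 4 % 2 = 0} ≃ Tup j where
  toFun y := ⟨![(y.1 4 / 2).toNat, (y.1 0 - y.1 4 / 2 - 1).toNat, (y.1 1 - y.1 4 / 2 - 1).toNat,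
    (y.1 2 - y.1 4 / 2 - 1).toNat, (y.1 3 - y.1 4 / 2 - 1).toNat,
    (j + 4 - (y.1 0 + y.1 1 + y.1 2 + y.1 3) + 3 * (y.1 4 / 2)).toNat], by
      obtain ⟨y, ⟨h1, h2, h3, h4, h5, h6⟩, h7⟩ := y
      simp [Fin.sum_univ_succ]
      omega⟩
  invFun f := ⟨![f.1 1 + f.1 0 + 1, f.1 2 + f.1 0 + 1, f.1 3 + f.1 0 + 1, f.1 4 + f.1 0 + 1,
    2 * f.1 0 + 1], by
      obtain ⟨f, hf⟩ := f
      simp only [Fin.sum_univ_succ] at hf
      simp at hf
      simp only [TZ]
      simp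
      omega⟩
  left_inv := by
    rintro ⟨y, ⟨h1, h2, h3, h4, h5, h6⟩, h7⟩
    ext k
    fin_cases k <;> simp <;> omega
  right_inv := by
    rintro ⟨f, hf⟩
    simp only [Fin.sum_univ_succ] at hf
    simp at hf
    ext k
    fin_cases k <;> simp <;> omega

lemma odd_empty {j : ℕ} (hj : j < 3) : IsEmpty {y : Fin 5 → ℤ // TZ j y ∧ ¬ y 4 % 2 = 0} := by
  constructor
  rintro ⟨y, ⟨h1, h2, h3, h4, h5, h6⟩, h7⟩
  omega

/-- The number of lattice points of the dilates of the simplex. -/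
def bNum (j : ℕ) : ℕ := (5 + j).choose 5 + if 3 ≤ j then (5 + (j - 3)).choose 5 else 0

/-- Splitting by parity. -/
noncomputable def splitEquiv (j : ℕ) : {y : Fin 5 → ℤ // TZ j y} ≃
    {y : Fin 5 → ℤ // TZ j y ∧ y 4 % 2 = 0} ⊕ {y : Fin 5 → ℤ // TZ j y ∧ ¬ y 4 % 2 = 0} :=
  ((Equiv.sumCompl (fun y : {y : Fin 5 → ℤ // TZ j y} => y.1 4 % 2 = 0)).symm.trans
    (Equiv.sumCongr (Equiv.subtypeSubtypeEquivSubtypeInter _ (fun y : Fin 5 → ℤ => y 4 % 2 = 0))
      (Equiv.subtypeSubtypeEquivSubtypeInter _ (fun y : Fin 5 → ℤ => ¬ y 4 % 2 = 0))))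

lemma finite_even (j : ℕ) : Finite {y : Fin 5 → ℤ // TZ j y ∧ y 4 % 2 = 0} :=
  Finite.of_equiv _ (evenEquiv j).symm

lemma finite_odd (j : ℕ) : Finite {y : Fin 5 → ℤ // TZ j y ∧ ¬ y 4 % 2 = 0} := by
  by_cases hj : 3 ≤ j
  · obtain ⟨k, rfl⟩ := Nat.exists_eq_add_of_le' hj
    exact Finite.of_equiv _ (oddEquiv k).symm
  · have := odd_empty (not_le.mp hj)
    infer_instance

lemma finite_TZ (j : ℕ) : Finite {y : Fin 5 → ℤ // TZ j y} := by
  have := finite_even j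
  have := finite_odd j
  exact Finite.of_equiv _ (splitEquiv j).symm

lemma card_TZ (j : ℕ) : Nat.card {y : Fin 5 → ℤ // TZ j y} = bNum j := by
  have := finite_even j
  have := finite_odd j
  rw [Nat.card_congr (splitEquiv j), Nat.card_sum, Nat.card_congr (evenEquiv j), card_Tup, bNum]
  congr 1
  by_cases hj : 3 ≤ j
  · rw [if_pos hj]
    obtain ⟨k, rfl⟩ := Nat.exists_eq_add_of_le' hj
    rw [Nat.card_congr (oddEquiv k), card_Tup]
    simp
  · rw [if_neg hj]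
    have := odd_empty (not_le.mp hj)
    exact Nat.card_of_isEmpty

/-- All lattice points of the dilate. -/
def allEquiv (m : ℕ) : {x : Fin 8 → ℤ // InZ m x} ≃
    (Σ i : Fin (m + 1), (Fin (i.1 + 1) × Fin (i.1 + 1)) × {y : Fin 5 → ℤ // TZ (m - i.1) y}) where
  toFun x := ⟨⟨(x.1 7).toNat, by
      obtain ⟨x, h1, h2, h3, h4, h5, h6, h7, h8, h9, h10⟩ := x
      simp only
      omega⟩, ((⟨(x.1 0).toNat, by
        obtain ⟨x, h1, h2, h3, h4, h5, h6, h7, h8, h9, h10⟩ := x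
        simp only
        omega⟩, ⟨(x.1 1).toNat, by
        obtain ⟨x, h1, h2, h3, h4, h5, h6, h7, h8, h9, h10⟩ := x
        simp only
        omega⟩), ⟨![x.1 2, x.1 3, x.1 4, x.1 5, x.1 6], by
        obtain ⟨x, h1, h2, h3, h4, h5, h6, h7, h8, h9, h10⟩ := x
        simp only [TZ]
        simp
        omega⟩)⟩
  invFun q := ⟨![q.2.1.1.1, q.2.1.2.1, q.2.2.1 0, q.2.2.1 1, q.2.2.1 2, q.2.2.1 3, q.2.2.1 4,
      q.1.1], by
      obtain ⟨⟨i, hi⟩, ⟨⟨a, ha⟩, ⟨b, hb⟩⟩, ⟨y, h1, h2, h3, h4, h5, h6⟩⟩ := q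
      simp only [InZ]
      simp at *
      omega⟩
  left_inv := by
    rintro ⟨x, h1, h2, h3, h4, h5, h6, h7, h8, h9, h10⟩
    ext k
    fin_cases k <;> simp <;> omega
  right_inv := by
    rintro ⟨⟨i, hi⟩, ⟨⟨a, ha⟩, ⟨b, hb⟩⟩, ⟨y, h1, h2, h3, h4, h5, h6⟩⟩
    simp
    ext k
    fin_cases k <;> simp

/-- The fixed lattice points of the dilate. -/
def fixEquiv (m : ℕ) : {x : Fin 8 → ℤ // InZ m x ∧ 2 * x 0 = x 7} ≃
    (Σ i : Fin (m + 1), ({a : Fin (i.1 + 1) // 2 * a.1 = i.1} × Fin (i.1 + 1)) ×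
      {y : Fin 5 → ℤ // TZ (m - i.1) y}) where
  toFun x := ⟨⟨(x.1 7).toNat, by
      obtain ⟨x, ⟨h1, h2, h3, h4, h5, h6, h7, h8, h9, h10⟩, h11⟩ := x
      simp only
      omega⟩, ((⟨⟨(x.1 0).toNat, by
        obtain ⟨x, ⟨h1, h2, h3, h4, h5, h6, h7, h8, h9, h10⟩, h11⟩ := x
        simp only
        omega⟩, by
        obtain ⟨x, ⟨h1, h2, h3, h4, h5, h6, h7, h8, h9, h10⟩, h11⟩ := x
        simp only
        omega⟩, ⟨(x.1 1).toNat, by
        obtain ⟨x, ⟨h1, h2, h3, h4, h5, h6, h7, h8, h9, h10⟩, h11⟩ := x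
        simp only
        omega⟩), ⟨![x.1 2, x.1 3, x.1 4, x.1 5, x.1 6], by
        obtain ⟨x, ⟨h1, h2, h3, h4, h5, h6, h7, h8, h9, h10⟩, h11⟩ := x
        simp only [TZ]
        simp
        omega⟩)⟩
  invFun q := ⟨![q.2.1.1.1.1, q.2.1.2.1, q.2.2.1 0, q.2.2.1 1, q.2.2.1 2, q.2.2.1 3, q.2.2.1 4,
      q.1.1], by
      obtain ⟨⟨i, hi⟩, ⟨⟨⟨a, ha⟩, ha'⟩, ⟨b, hb⟩⟩, ⟨y, h1, h2, h3, h4, h5, h6⟩⟩ := q
      simp only [InZ]
      simp at *
      omega⟩
  left_inv := by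
    rintro ⟨x, ⟨h1, h2, h3, h4, h5, h6, h7, h8, h9, h10⟩, h11⟩
    ext k
    fin_cases k <;> simp <;> omega
  right_inv := by
    rintro ⟨⟨i, hi⟩, ⟨⟨⟨a, ha⟩, ha'⟩, ⟨b, hb⟩⟩, ⟨y, h1, h2, h3, h4, h5, h6⟩⟩
    simp
    ext k
    fin_cases k <;> simp

/-- Number of points of the dilates of the square. -/
def aNum (i : ℕ) : ℕ := (i + 1) * (i + 1)

/-- Number of fixed points of the dilates of the square. -/
def aFix (i : ℕ) : ℕ := if i % 2 = 0 then i + 1 else 0

lemma card_half (i : ℕ) : Nat.card {a : Fin (i + 1) // 2 * a.1 = i} = if i % 2 = 0 then 1 else 0 := by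
  split_ifs with h
  · rw [Nat.card_eq_one_iff_unique]
    constructor
    · constructor
      rintro ⟨⟨a, ha⟩, ha'⟩ ⟨⟨b, hb⟩, hb'⟩
      simp only at ha' hb'
      have : a = b := by omega
      subst this
      rfl
    · exact ⟨⟨⟨i / 2, by omega⟩, by simp only; omega⟩⟩
  · have : IsEmpty {a : Fin (i + 1) // 2 * a.1 = i} := by
      constructor
      rintro ⟨⟨a, ha⟩, ha'⟩
      simp only at ha'
      omega
    exact Nat.card_of_isEmpty

lemma card_all (m : ℕ) : Nat.card {x : Fin 8 → ℤ // InZ m x} =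
    ∑ p ∈ Finset.HasAntidiagonal.antidiagonal m, aNum p.1 * bNum p.2 := by
  have := fun j => finite_TZ j
  rw [Nat.card_congr (allEquiv m), Nat.card_sigma,
    Finset.Nat.sum_antidiagonal_eq_sum_range_succ (fun i j => aNum i * bNum j), Finset.sum_range]
  refine Finset.sum_congr rfl fun i _ => ?_
  rw [Nat.card_prod, Nat.card_prod, card_TZ, Nat.card_fin, aNum]

lemma card_fix (m : ℕ) : Nat.card {x : Fin 8 → ℤ // InZ m x ∧ 2 * x 0 = x 7} =
    ∑ p ∈ Finset.HasAntidiagonal.antidiagonal m, aFix p.1 * bNum p.2 := by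
  have := fun j => finite_TZ j
  rw [Nat.card_congr (fixEquiv m), Nat.card_sigma,
    Finset.Nat.sum_antidiagonal_eq_sum_range_succ (fun i j => aFix i * bNum j), Finset.sum_range]
  refine Finset.sum_congr rfl fun i _ => ?_
  rw [Nat.card_prod, Nat.card_prod, card_TZ, Nat.card_fin, card_half, aFix]
  split_ifs <;> simp

lemma fixed_iff_one {m : ℕ} (hm : m ≠ 0) (x : Fin 8 → ℤ) :
    (m : ℝ) • psi 1 ((m : ℝ)⁻¹ • toReal x) = toReal x := by
  have hm' : (m : ℝ) ≠ 0 := Nat.cast_ne_zero.mpr hm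
  rw [psi_one_apply, smul_inv_smul₀ hm']

lemma fixed_iff_neg {m : ℕ} (hm : m ≠ 0) (x : Fin 8 → ℤ) :
    (m : ℝ) • psi (-1) ((m : ℝ)⁻¹ • toReal x) = toReal x ↔ 2 * x 0 = x 7 := by
  have hm' : (m : ℝ) ≠ 0 := Nat.cast_ne_zero.mpr hm
  constructor
  · intro h
    have h0 := congrFun h 0
    simp only [Pi.smul_apply, smul_eq_mul, psi_neg_apply, if_true, toReal] at h0
    have : (2 * x 0 : ℝ) = x 7 := by
      field_simp at h0
      linarith
    exact_mod_cast this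
  · intro h
    have h' : (2 * x 0 : ℝ) = x 7 := by exact_mod_cast h
    ext j
    simp only [Pi.smul_apply, smul_eq_mul, psi_neg_apply, toReal]
    split_ifs with hj
    · subst hj
      field_simp
      linarith
    · field_simp

lemma chi_one (m : ℕ) : chi psi PP m 1 = ∑ p ∈ Finset.HasAntidiagonal.antidiagonal m, aNum p.1 * bNum p.2 := by
  rw [chi]
  split_ifs with hm
  · subst hm
    simp [aNum, bNum]
  · rw [← card_all]
    apply Nat.card_congr
    apply Equiv.subtypeEquivRight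
    intro x
    rw [mem_smul_PP hm]
    exact and_iff_left (fixed_iff_one hm x)

lemma chi_neg (m : ℕ) : chi psi PP m (-1) = ∑ p ∈ Finset.HasAntidiagonal.antidiagonal m, aFix p.1 * bNum p.2 := by
  rw [chi]
  split_ifs with hm
  · subst hm
    simp [aFix, bNum]
  · rw [← card_fix]
    apply Nat.card_congr
    apply Equiv.subtypeEquivRight
    intro x
    rw [mem_smul_PP hm, fixed_iff_neg hm]

/-! ### The series -/

open PowerSeries in
lemma mk_aNum : (mk fun n => (aNum n : ℂ)) * (1 - X) ^ 3 = 1 + X := by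
  have : (mk fun n => (aNum n : ℂ)) * (1 - X) ^ 3 =
      (mk fun n => (aNum n : ℂ)) - 3 * (X * (mk fun n => (aNum n : ℂ))) +
      3 * (X * (X * (mk fun n => (aNum n : ℂ)))) - X * (X * (X * (mk fun n => (aNum n : ℂ)))) := by
    ring
  rw [this]
  have h3 : (3 : ℂ⟦X⟧) = C (3 : ℂ) := (map_ofNat (C : ℂ →+* ℂ⟦X⟧) 3).symm
  rw [h3]
  ext n
  rcases n with _ | _ | _ | n
  · simp [aNum]
  · simp [coeff_succ_X_mul, aNum, coeff_one]
    norm_num
  · simp [coeff_succ_X_mul, aNum, coeff_one, coeff_X]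
    norm_num
  · simp [coeff_succ_X_mul, aNum, coeff_one, coeff_X]
    ring

open PowerSeries in
lemma mk_aFix : (mk fun n => (aFix n : ℂ)) * ((1 - X) ^ 2 * (1 + X) ^ 2) = 1 + X ^ 2 := by
  have : (mk fun n => (aFix n : ℂ)) * ((1 - X) ^ 2 * (1 + X) ^ 2) =
      (mk fun n => (aFix n : ℂ)) - 2 * (X * (X * (mk fun n => (aFix n : ℂ)))) +
      (X * (X * (X * (X * (mk fun n => (aFix n : ℂ)))))) := by
    ring
  rw [this]
  have h2 : (2 : ℂ⟦X⟧) = C (2 : ℂ) := (map_ofNat (C : ℂ →+* ℂ⟦X⟧) 2).symm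
  rw [h2]
  ext n
  rcases n with _ | _ | _ | _ | n
  · simp [aFix]
  · simp [coeff_succ_X_mul, aFix, coeff_one, coeff_X_pow]
  · simp [coeff_succ_X_mul, aFix, coeff_one, coeff_X_pow]
  · simp [coeff_succ_X_mul, aFix, coeff_one, coeff_X_pow]
  · have e1 : (n + 1 + 1 + 1 + 1) % 2 = n % 2 := by omega
    have e2 : (n + 1 + 1) % 2 = n % 2 := by omega
    have e3 : ¬ (n + 1 + 1 + 1 + 1 = 0) := by omega
    have e4 : ¬ (n + 1 + 1 + 1 + 1 = 2) := by omega
    simp only [map_add, map_sub, coeff_succ_X_mul, coeff_C_mul, coeff_mk, aFix, e1, e2, coeff_one,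
      coeff_X_pow, if_neg e3, if_neg e4]
    split_ifs with h
    · push_cast
      ring
    · simp

open PowerSeries in
lemma mk_bNum : (mk fun n => (bNum n : ℂ)) * (1 - X) ^ 6 = 1 + X ^ 3 := by
  have h : (mk fun n => (bNum n : ℂ)) = (1 + X ^ 3) * (mk fun n => (Nat.choose (5 + n) 5 : ℂ)) := by
    ext n
    rw [add_mul, one_mul, map_add, coeff_X_pow_mul']
    simp only [coeff_mk, bNum]
    push_cast
    congr 1
  rw [h, mul_assoc, mk_add_choose_mul_one_sub_pow_eq_one ℂ 5, mul_one]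

open PowerSeries in
lemma HStar_one : HStar psi PP 1 = (1 + X) * (1 + X ^ 3) := by
  have h : (mk fun m => (chi psi PP m 1 : ℂ)) =
      (mk fun n => (aNum n : ℂ)) * (mk fun n => (bNum n : ℂ)) := by
    ext m
    rw [coeff_mul, coeff_mk, chi_one]
    simp only [coeff_mk]
    push_cast
    rfl
  rw [HStar, h, det_psi, ← mk_aNum, ← mk_bNum]
  simp only [uR_one]
  simp only [Complex.ofReal_one, map_one, one_mul]
  ring

open PowerSeries in
lemma HStar_neg : HStar psi PP (-1) = (1 + X ^ 2) * (1 - X + X ^ 2) := by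
  have h : (mk fun m => (chi psi PP m (-1) : ℂ)) =
      (mk fun n => (aFix n : ℂ)) * (mk fun n => (bNum n : ℂ)) := by
    ext m
    rw [coeff_mul, coeff_mk, chi_neg]
    simp only [coeff_mk]
    push_cast
    rfl
  have hu : uR (-1) = -1 := by simp [uR]
  have hb : (mk fun n => (bNum n : ℂ)) * (1 - X) ^ 6 = (1 + X) * (1 - X + X ^ 2) := by
    rw [mk_bNum]; ring
  rw [HStar, h, det_psi, ← mk_aFix, hu]
  simp only [Complex.ofReal_neg, Complex.ofReal_one, map_neg, map_one, neg_mul, one_mul,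
    sub_neg_eq_add]
  calc (mk fun n => (aFix n : ℂ)) * (mk fun n => (bNum n : ℂ)) *
        ((1 - X) * ((1 + X) * (1 - X) ^ 7))
      = (mk fun n => (aFix n : ℂ)) * ((1 - X) ^ 2 * (1 + X)) *
        ((mk fun n => (bNum n : ℂ)) * (1 - X) ^ 6) := by ring
    _ = (mk fun n => (aFix n : ℂ)) * ((1 - X) ^ 2 * (1 + X)) * ((1 + X) * (1 - X + X ^ 2)) := by
        rw [hb]
    _ = _ := by ring

open PowerSeries in
lemma coeff_HStar_large {i : ℕ} (hi : 4 < i) (g : ℤˣ) : coeff i (HStar psi PP g) = 0 := by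
  rcases Int.units_eq_one_or g with rfl | rfl
  · rw [HStar_one]
    have : ((1 + X) * (1 + X ^ 3) : ℂ⟦X⟧) = 1 + X + X ^ 3 + X ^ 4 := by ring
    rw [this]
    simp only [map_add, coeff_one, coeff_X, coeff_X_pow]
    rw [if_neg (by omega), if_neg (by omega), if_neg (by omega), if_neg (by omega)]
    simp
  · rw [HStar_neg]
    have : ((1 + X ^ 2) * (1 - X + X ^ 2) : ℂ⟦X⟧) =
        1 - X + X ^ 2 + X ^ 2 - X ^ 3 + X ^ 4 := by ring
    rw [this]
    simp only [map_add, map_sub, coeff_one, coeff_X, coeff_X_pow]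
    rw [if_neg (by omega), if_neg (by omega), if_neg (by omega), if_neg (by omega),
      if_neg (by omega)]
    simp

open PowerSeries in
lemma coeff_two_one : coeff 2 (HStar psi PP 1) = 0 := by
  rw [HStar_one]
  have : ((1 + X) * (1 + X ^ 3) : ℂ⟦X⟧) = 1 + X + X ^ 3 + X ^ 4 := by ring
  rw [this]
  simp [coeff_one, coeff_X, coeff_X_pow]

open PowerSeries in
lemma coeff_two_neg : coeff 2 (HStar psi PP (-1)) = 2 := by
  rw [HStar_neg]
  have : ((1 + X ^ 2) * (1 - X + X ^ 2) : ℂ⟦X⟧) =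
      1 - X + X ^ 2 + X ^ 2 - X ^ 3 + X ^ 4 := by ring
  rw [this]
  simp [coeff_one, coeff_X, coeff_X_pow]
  norm_num

lemma polynomial_psi : HStarPolynomial psi PP := by
  apply Set.Finite.subset (Set.finite_Iic 4)
  rintro i ⟨g, hg⟩
  by_contra hi
  exact hg (coeff_HStar_large (not_le.mp hi) g)

lemma not_effective_psi : ¬ HStarEffective psi PP := by
  intro h
  obtain ⟨W, _, _, _, τ, hτ⟩ := h 2
  have h1 := hτ 1
  have h2 := hτ (-1)
  rw [coeff_two_one, map_one, LinearMap.trace_one] at h1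
  rw [coeff_two_neg] at h2
  have hr : Module.finrank ℂ W = 0 := by exact_mod_cast h1
  have hs : Subsingleton W := Module.finrank_zero_iff.mp hr
  have hz : τ (-1) = 0 := by
    ext x
    exact Subsingleton.elim _ _
  rw [hz, map_zero] at h2
  norm_num at h2

/-- **Polynomiality of the equivariant `H*`-series does not imply effectiveness.**  There are a
finite group `G`, acting on `ℝ ^ d` by affine automorphisms of the lattice `ℤ ^ d`, and a
`G`-invariant `d`-dimensional lattice polytope `P` such that `H*(t)` is polynomial but not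
effective. -/
theorem result :
    ∃ (G : Type) (_ : Group G) (_ : Finite G) (d : ℕ)
      (ψ : G →* ((Fin d → ℝ) ≃ᵃ[ℝ] (Fin d → ℝ))) (P : Set (Fin d → ℝ)),
      IsLatticePolytope P ∧ ActsOn ψ P ∧ HStarPolynomial ψ P ∧ ¬ HStarEffective ψ P :=
  ⟨ℤˣ, inferInstance, inferInstance, 8, psi, PP, isLatticePolytope_PP, actsOn, polynomial_psi,
    not_effective_psi⟩

end Pool.Agent.Results.MP_3885fd_co.PolynomialNotEffective
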